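import Mathlib

set_option autoImplicit false

namespace Pool.Agent.H14.Shatter

open Finset

/-- `F` is `h`-universal: all sign patterns on all `h`-tuples of distinct points are realised. -/
def Universal {T : Type*} (h : ℕ) (F : Finset (T → Bool)) : Prop :=
  ∀ τ : Fin h → T, Function.Injective τ → ∀ β : Fin h → Bool, ∃ f ∈ F, ∀ r, f (τ r) = β r

lemma card_agree {T : Type*} [Fintype T] [DecidableEq T] {h : ℕ} (τ : Fin h → T)
    (hτ : Function.Injective τ) (β : Fin h → Bool) :
    (Finset.univ.filter (fun f : T → Bool => ∀ r, f (τ r) = β r)).card * 2 ^ h =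
      2 ^ (Fintype.card T) := by
  classical
  have h1 : (Finset.univ.filter (fun f : T → Bool => ∀ r, f (τ r) = β r)) =
      Fintype.piFinset (fun t : T => if hh : ∃ r, τ r = t then {β hh.choose} else Finset.univ) := by
    ext f
    simp only [Finset.mem_filter, Finset.mem_univ, true_and, Fintype.mem_piFinset]
    constructor
    · intro H t
      split_ifs with hh
      · rw [Finset.mem_singleton]
        have := H hh.choose
        rw [hh.choose_spec] at this
        exact this
      · exact Finset.mem_univ _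
    · intro H r
      have := H (τ r)
      have hh : ∃ r', τ r' = τ r := ⟨r, rfl⟩
      rw [dif_pos hh, Finset.mem_singleton] at this
      rw [this]
      congr 1
      exact hτ hh.choose_spec
  rw [h1, Fintype.card_piFinset]
  have h2 : ∀ t : T, (if hh : ∃ r, τ r = t then ({β hh.choose} : Finset Bool) else
      Finset.univ).card = if t ∈ Finset.univ.image τ then 1 else 2 := by
    intro t
    by_cases hh : ∃ r, τ r = t
    · rw [dif_pos hh, if_pos]
      · simp
      · rw [Finset.mem_image]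
        obtain ⟨r, hr⟩ := hh
        exact ⟨r, Finset.mem_univ _, hr⟩
    · rw [dif_neg hh, if_neg]
      · simp
      · rw [Finset.mem_image]
        rintro ⟨r, _, hr⟩
        exact hh ⟨r, hr⟩
  rw [Finset.prod_congr rfl (fun t _ => h2 t), Finset.prod_ite]
  simp only [Finset.prod_const_one, Finset.prod_const, one_mul]
  have h3 : (Finset.univ.filter (fun t : T => t ∉ Finset.univ.image τ)).card + h =
      Fintype.card T := by
    have h4 : (Finset.univ.image τ).card = h := by
      rw [Finset.card_image_of_injective _ hτ, Finset.card_univ, Fintype.card_fin]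
    have h5 := Finset.card_filter_add_card_filter_not (s := (Finset.univ : Finset T))
      (fun t => t ∈ Finset.univ.image τ)
    have h6 : (Finset.univ.filter (fun t : T => t ∈ Finset.univ.image τ)) =
        Finset.univ.image τ := by
      ext t; simp
    rw [h6, h4, Finset.card_univ] at h5
    omega
  rw [← h3, pow_add]

lemma greedy {T : Type*} [Fintype T] [DecidableEq T] {h : ℕ}
    (C : Finset ((Fin h → T) × (Fin h → Bool))) (hC : ∀ c ∈ C, Function.Injective c.1) :
    ∃ f : T → Bool, C.card ≤ (C.filter (fun c => ∀ r, f (c.1 r) = c.2 r)).card * 2 ^ h := by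
  classical
  have hsum : ∑ f : T → Bool, C.card ≤
      ∑ f : T → Bool, (C.filter (fun c => ∀ r, f (c.1 r) = c.2 r)).card * 2 ^ h := by
    rw [Finset.sum_const, Finset.card_univ, Fintype.card_fun, Fintype.card_bool, smul_eq_mul]
    rw [← Finset.sum_mul]
    have h1 : ∑ f : T → Bool, (C.filter (fun c => ∀ r, f (c.1 r) = c.2 r)).card =
        ∑ c ∈ C, (Finset.univ.filter (fun f : T → Bool => ∀ r, f (c.1 r) = c.2 r)).card := by
      simp only [Finset.card_filter]
      rw [Finset.sum_comm]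
    rw [h1, Finset.sum_mul]
    rw [Finset.sum_congr rfl (fun c hc => card_agree c.1 (hC c hc) c.2)]
    rw [Finset.sum_const, smul_eq_mul, mul_comm]
  obtain ⟨f, _, hf⟩ := Finset.exists_le_of_sum_le (Finset.univ_nonempty) hsum
  exact ⟨f, hf⟩

lemma iterate {T : Type*} [Fintype T] [DecidableEq T] {h : ℕ}
    (C : Finset ((Fin h → T) × (Fin h → Bool))) (hC : ∀ c ∈ C, Function.Injective c.1) (r : ℕ) :
    ∃ F : Finset (T → Bool), F.card ≤ r ∧
      (C.filter (fun c => ¬ ∃ f ∈ F, ∀ j, f (c.1 j) = c.2 j)).card * (2 ^ h) ^ r ≤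
        C.card * (2 ^ h - 1) ^ r := by
  classical
  induction r with
  | zero =>
    refine ⟨∅, by simp, ?_⟩
    simp
  | succ r ih =>
    obtain ⟨F, hF, hU⟩ := ih
    set U := C.filter (fun c => ¬ ∃ f ∈ F, ∀ j, f (c.1 j) = c.2 j) with hUdef
    obtain ⟨g, hg⟩ := greedy U (fun c hc => hC c (Finset.mem_of_mem_filter c hc))
    refine ⟨insert g F, (Finset.card_insert_le _ _).trans (by omega), ?_⟩
    have hsub : (C.filter (fun c => ¬ ∃ f ∈ insert g F, ∀ j, f (c.1 j) = c.2 j)) ⊆
        U.filter (fun c => ¬ ∀ j, g (c.1 j) = c.2 j) := by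
      intro c hc
      rw [Finset.mem_filter] at hc
      rw [Finset.mem_filter, hUdef, Finset.mem_filter]
      refine ⟨⟨hc.1, ?_⟩, ?_⟩
      · rintro ⟨f, hf, hf'⟩
        exact hc.2 ⟨f, Finset.mem_insert_of_mem hf, hf'⟩
      · intro hh
        exact hc.2 ⟨g, Finset.mem_insert_self _ _, hh⟩
    have hcard := Finset.card_le_card hsub
    have hsplit := Finset.card_filter_add_card_filter_not (s := U)
      (fun c => ∀ j, g (c.1 j) = c.2 j)
    set a := (U.filter (fun c => ∀ j, g (c.1 j) = c.2 j)).card with ha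
    set b := (U.filter (fun c => ¬ ∀ j, g (c.1 j) = c.2 j)).card with hb
    have hb2 : b * 2 ^ h ≤ U.card * (2 ^ h - 1) := by
      have h1 : 1 ≤ 2 ^ h := Nat.one_le_two_pow
      have h2 : U.card = a + b := hsplit.symm
      obtain ⟨w, hw⟩ : ∃ w, 2 ^ h = w + 1 := ⟨2 ^ h - 1, by omega⟩
      rw [hw] at hg ⊢
      simp only [Nat.add_sub_cancel]
      rw [h2] at hg ⊢
      nlinarith
    calc (C.filter (fun c => ¬ ∃ f ∈ insert g F, ∀ j, f (c.1 j) = c.2 j)).card * (2 ^ h) ^ (r + 1)
        ≤ b * (2 ^ h) ^ (r + 1) := Nat.mul_le_mul_right _ hcard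
      _ = (b * 2 ^ h) * (2 ^ h) ^ r := by rw [pow_succ]; ring
      _ ≤ (U.card * (2 ^ h - 1)) * (2 ^ h) ^ r := Nat.mul_le_mul_right _ hb2
      _ = (U.card * (2 ^ h) ^ r) * (2 ^ h - 1) := by ring
      _ ≤ (C.card * (2 ^ h - 1) ^ r) * (2 ^ h - 1) := Nat.mul_le_mul_right _ hU
      _ = C.card * (2 ^ h - 1) ^ (r + 1) := by rw [pow_succ]; ring

/-- Existence of small universal families. -/
theorem exists_universal (T : Type*) [Fintype T] (hT : 1 ≤ Fintype.card T) (h : ℕ) :
    ∃ F : Finset (T → Bool), Universal h F ∧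
      (F.card : ℝ) ≤ 2 ^ h * h * Real.log (2 * Fintype.card T) + 2 := by
  classical
  set M : ℝ := (Fintype.card T : ℝ) with hM
  have hM1 : (1 : ℝ) ≤ M := by rw [hM]; exact_mod_cast hT
  let C : Finset ((Fin h → T) × (Fin h → Bool)) :=
    Finset.univ.filter (fun c => Function.Injective c.1)
  have hC : ∀ c ∈ C, Function.Injective c.1 := fun c hc => (Finset.mem_filter.mp hc).2
  let r : ℕ := ⌈(2 : ℝ) ^ h * h * Real.log (2 * M)⌉₊ + 1
  obtain ⟨F, hF, hU⟩ := iterate C hC r
  have hCcard : (C.card : ℝ) ≤ (2 * M) ^ h := by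
    have h1 : C.card ≤ Fintype.card ((Fin h → T) × (Fin h → Bool)) := by
      rw [← Finset.card_univ]; exact Finset.card_filter_le _ _
    rw [Fintype.card_prod, Fintype.card_fun, Fintype.card_fun, Fintype.card_bool,
      Fintype.card_fin] at h1
    calc (C.card : ℝ) ≤ ((Fintype.card T ^ h * 2 ^ h : ℕ) : ℝ) := by exact_mod_cast h1
      _ = (2 * M) ^ h := by push_cast; rw [mul_pow]; ring
  have hlog : 0 ≤ Real.log (2 * M) := Real.log_nonneg (by linarith)
  have hr : (2 : ℝ) ^ h * h * Real.log (2 * M) < r := by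
    have := Nat.le_ceil ((2 : ℝ) ^ h * h * Real.log (2 * M))
    simp only [r]
    push_cast
    linarith
  have h2h : (0 : ℝ) < 2 ^ h := by positivity
  have hsmall : (C.card : ℝ) * ((2 : ℝ) ^ h - 1) ^ r < ((2 : ℝ) ^ h) ^ r := by
    have e1 : ((2 : ℝ) ^ h - 1) ^ r = ((2 : ℝ) ^ h) ^ r * (1 - 1 / 2 ^ h) ^ r := by
      rw [← mul_pow]
      congr 1
      field_simp
    have e0 : 0 ≤ 1 - 1 / (2 : ℝ) ^ h := by
      have : 1 / (2 : ℝ) ^ h ≤ 1 := by
        rw [div_le_one h2h]
        exact one_le_pow₀ (by norm_num)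
      linarith
    have e2 : (1 - 1 / (2 : ℝ) ^ h) ^ r ≤ Real.exp (-(r / 2 ^ h)) := by
      have h3 : 1 - 1 / (2 : ℝ) ^ h ≤ Real.exp (-(1 / 2 ^ h)) := by
        have := Real.add_one_le_exp (-(1 / (2 : ℝ) ^ h))
        linarith
      have h4 : 0 ≤ 1 - 1 / (2 : ℝ) ^ h := by
        have : 1 / (2 : ℝ) ^ h ≤ 1 := by
          rw [div_le_one h2h]
          exact one_le_pow₀ (by norm_num)
        linarith
      calc (1 - 1 / (2 : ℝ) ^ h) ^ r ≤ (Real.exp (-(1 / 2 ^ h))) ^ r :=
            pow_le_pow_left₀ h4 h3 r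
        _ = Real.exp (-(r / 2 ^ h)) := by
            rw [← Real.exp_nat_mul]
            congr 1
            ring
    have e3 : (C.card : ℝ) ≤ Real.exp (h * Real.log (2 * M)) := by
      refine hCcard.trans (le_of_eq ?_)
      rw [Real.exp_nat_mul, Real.exp_log (by linarith)]
    have e4 : h * Real.log (2 * M) < r / 2 ^ h := by
      rw [lt_div_iff₀ h2h]
      linarith
    rw [e1]
    calc (C.card : ℝ) * (((2 : ℝ) ^ h) ^ r * (1 - 1 / 2 ^ h) ^ r)
        ≤ Real.exp (h * Real.log (2 * M)) * (((2 : ℝ) ^ h) ^ r * Real.exp (-(r / 2 ^ h))) := by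
          refine mul_le_mul e3 (mul_le_mul_of_nonneg_left e2 (by positivity)) ?_
            (Real.exp_pos _).le
          exact mul_nonneg (by positivity) (pow_nonneg e0 r)
      _ = ((2 : ℝ) ^ h) ^ r * Real.exp (h * Real.log (2 * M) - r / 2 ^ h) := by
          rw [sub_eq_add_neg, Real.exp_add]; ring
      _ < ((2 : ℝ) ^ h) ^ r * 1 := by
          apply mul_lt_mul_of_pos_left _ (by positivity)
          rw [Real.exp_lt_one_iff]
          linarith
      _ = ((2 : ℝ) ^ h) ^ r := mul_one _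
  have hU0 : (C.filter (fun c => ¬ ∃ f ∈ F, ∀ j, f (c.1 j) = c.2 j)).card = 0 := by
    by_contra hne
    have h1 : 1 ≤ (C.filter (fun c => ¬ ∃ f ∈ F, ∀ j, f (c.1 j) = c.2 j)).card := by omega
    have h2 : (2 ^ h) ^ r ≤ C.card * (2 ^ h - 1) ^ r := by
      calc (2 ^ h) ^ r = 1 * (2 ^ h) ^ r := (one_mul _).symm
        _ ≤ _ := (Nat.mul_le_mul_right _ h1).trans hU
    have h3 : (((2 ^ h) ^ r : ℕ) : ℝ) ≤ ((C.card * (2 ^ h - 1) ^ r : ℕ) : ℝ) := by
      exact_mod_cast h2
    have h4 : (((2 ^ h - 1 : ℕ)) : ℝ) = (2 : ℝ) ^ h - 1 := by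
      rw [Nat.cast_sub Nat.one_le_two_pow]
      push_cast
      ring
    push_cast at h3
    rw [h4] at h3
    linarith
  refine ⟨F, ?_, ?_⟩
  · intro τ hτ β
    by_contra hne
    have hmem : (τ, β) ∈ C.filter (fun c => ¬ ∃ f ∈ F, ∀ j, f (c.1 j) = c.2 j) := by
      rw [Finset.mem_filter]
      exact ⟨Finset.mem_filter.mpr ⟨Finset.mem_univ _, hτ⟩, hne⟩
    rw [Finset.card_eq_zero] at hU0
    rw [hU0] at hmem
    exact absurd hmem (Finset.notMem_empty _)
  · have h1 : (F.card : ℝ) ≤ r := by exact_mod_cast hF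
    have h2 : (r : ℝ) ≤ 2 ^ h * h * Real.log (2 * M) + 2 := by
      simp only [r]
      push_cast
      have := (Nat.ceil_lt_add_one (show 0 ≤ (2 : ℝ) ^ h * h * Real.log (2 * M) by positivity)).le
      linarith
    linarith

end Pool.Agent.H14.Shatter
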