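import Mathlib
import Pool.Agent.H14.Universal

set_option autoImplicit false

namespace Pool.Agent.H14.Shatter

open Finset

/-- The ordering of `X` induced by the permutation `ρ`. -/
abbrev ind {n : ℕ} (ρ : Equiv.Perm (Fin n)) (X : Finset (Fin n)) : Finset (Fin n × Fin n) :=
  (X ×ˢ X).filter (fun p => ρ p.1 < ρ p.2)

/-- A permutation realising a given injective key. -/
lemma exists_perm {n : ℕ} {β : Type*} [LinearOrder β] (key : Fin n → β)
    (hk : Function.Injective key) :
    ∃ ρ : Equiv.Perm (Fin n), ∀ x y, ρ x < ρ y ↔ key x < key y := by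
  classical
  let S : Finset β := Finset.univ.image key
  have hS : S.card = n := by
    rw [Finset.card_image_of_injective _ hk, Finset.card_univ, Fintype.card_fin]
  let e := S.orderIsoOfFin hS
  have hmem : ∀ x, key x ∈ S := fun x => Finset.mem_image_of_mem _ (Finset.mem_univ _)
  let g : Fin n → Fin n := fun x => e.symm ⟨key x, hmem x⟩
  have hg : Function.Injective g := by
    intro x y hxy
    have := e.symm.injective hxy
    exact hk (congrArg Subtype.val this)
  refine ⟨Equiv.ofBijective g (Finite.injective_iff_bijective.mp hg), ?_⟩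
  intro x y
  rw [Equiv.ofBijective_apply, Equiv.ofBijective_apply]
  simp only [g]
  rw [e.symm.lt_iff_lt]
  exact Iff.rfl

/-- `q` is the first position at which the strings of `x` and `y` differ. -/
def Diff {n M : ℕ} (Z : Fin n → Fin M → Bool) (x y : Fin n) (q : Fin M) : Prop :=
  (∀ q' < q, Z x q' = Z y q') ∧ Z x q ≠ Z y q

lemma Diff.symm {n M : ℕ} {Z : Fin n → Fin M → Bool} {x y : Fin n} {q : Fin M}
    (h : Diff Z x y q) : Diff Z y x q :=
  ⟨fun q' hq' => (h.1 q' hq').symm, h.2.symm⟩

lemma exists_diff {n M : ℕ} {Z : Fin n → Fin M → Bool} (hZ : Function.Injective Z)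
    {x y : Fin n} (hxy : x ≠ y) : ∃ q, Diff Z x y q := by
  classical
  have hne : (Finset.univ.filter (fun q => Z x q ≠ Z y q)).Nonempty := by
    by_contra h
    rw [Finset.not_nonempty_iff_eq_empty, Finset.filter_eq_empty_iff] at h
    apply hxy
    apply hZ
    funext q
    by_contra hq
    exact h (Finset.mem_univ q) hq
  refine ⟨(Finset.univ.filter (fun q => Z x q ≠ Z y q)).min' hne, ?_, ?_⟩
  · intro q' hq'
    by_contra hq
    have := Finset.min'_le (Finset.univ.filter (fun q => Z x q ≠ Z y q)) q'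
      (Finset.mem_filter.mpr ⟨Finset.mem_univ _, hq⟩)
    exact absurd hq' (not_lt.mpr this)
  · exact (Finset.mem_filter.mp (Finset.min'_mem _ hne)).2

/-- the flip function `φ` only depends on the prefix -/
def PrefixDet {n M : ℕ} (Z : Fin n → Fin M → Bool) (φ : Fin n → Fin M → Bool) : Prop :=
  ∀ x y q, (∀ q' < q, Z x q' = Z y q') → φ x q = φ y q

/-- the key of a tree order -/
def key {n M : ℕ} (Z : Fin n → Fin M → Bool) (φ : Fin n → Fin M → Bool) (x : Fin n) :
    Lex (Fin M → Bool) :=
  toLex (fun q => xor (Z x q) (φ x q))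

lemma key_lt_of_diff {n M : ℕ} {Z : Fin n → Fin M → Bool} {φ : Fin n → Fin M → Bool}
    (hφ : PrefixDet Z φ) {x y : Fin n} {q : Fin M} (h : Diff Z x y q)
    (hx : xor (Z x q) (φ x q) = false) : key Z φ x < key Z φ y := by
  refine ⟨q, ?_, ?_⟩
  · intro q' hq'
    change xor (Z x q') (φ x q') = xor (Z y q') (φ y q')
    rw [h.1 q' hq', hφ x y q' (fun q'' hq'' => h.1 q'' (hq''.trans hq'))]
  · change xor (Z x q) (φ x q) < xor (Z y q) (φ y q)
    have h1 : φ x q = φ y q := hφ x y q h.1
    have h2 := h.2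
    rw [h1] at hx ⊢
    rw [hx]
    cases hzx : Z x q <;> cases hzy : Z y q <;> cases hf : φ y q <;> simp_all

lemma key_lt_iff {n M : ℕ} {Z : Fin n → Fin M → Bool} {φ : Fin n → Fin M → Bool}
    (hφ : PrefixDet Z φ) {x y : Fin n} {q : Fin M} (h : Diff Z x y q) :
    key Z φ x < key Z φ y ↔ xor (Z x q) (φ x q) = false := by
  constructor
  · intro hlt
    by_contra hx
    have h1 : φ x q = φ y q := hφ x y q h.1
    have h2 := h.2
    have hy : xor (Z y q) (φ y q) = false := by
      rw [h1] at hx
      cases hzx : Z x q <;> cases hzy : Z y q <;> cases hf : φ y q <;> simp_all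
    exact absurd hlt (not_lt.mpr (key_lt_of_diff hφ h.symm hy).le)
  · exact key_lt_of_diff hφ h

lemma key_injective {n M : ℕ} {Z : Fin n → Fin M → Bool} {φ : Fin n → Fin M → Bool}
    (hZ : Function.Injective Z) (hφ : PrefixDet Z φ) : Function.Injective (key Z φ) := by
  intro x y hxy
  by_contra hne
  obtain ⟨q, hq⟩ := exists_diff hZ hne
  have h1 := key_lt_iff hφ hq
  have h2 := key_lt_iff hφ hq.symm
  rw [hxy] at h1 h2
  have h1' := (not_congr h1).mp (lt_irrefl _)
  have h2' := (not_congr h2).mp (lt_irrefl _)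
  have h3 : φ x q = φ y q := hφ x y q hq.1
  have h4 := hq.2
  rw [h3] at h1'
  revert h1' h2' h4
  cases Z x q <;> cases Z y q <;> cases φ y q <;> decide

/-- The tree order of `(Z, φ)`. -/
lemma exists_treePerm {n M : ℕ} (Z : Fin n → Fin M → Bool) (φ : Fin n → Fin M → Bool)
    (hZ : Function.Injective Z) (hφ : PrefixDet Z φ) :
    ∃ ρ : Equiv.Perm (Fin n), ∀ x y q, Diff Z x y q →
      (ρ x < ρ y ↔ xor (Z x q) (φ x q) = false) := by
  obtain ⟨ρ, hρ⟩ := exists_perm (key Z φ) (key_injective hZ hφ)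
  exact ⟨ρ, fun x y q h => (hρ x y).trans (key_lt_iff hφ h)⟩

open Classical in
/-- a chosen tree order -/
noncomputable def treePerm {n M : ℕ} (Z : Fin n → Fin M → Bool) (φ : Fin n → Fin M → Bool) :
    Equiv.Perm (Fin n) :=
  if h : Function.Injective Z ∧ PrefixDet Z φ then (exists_treePerm Z φ h.1 h.2).choose else 1

lemma treePerm_lt_iff {n M : ℕ} {Z : Fin n → Fin M → Bool} {φ : Fin n → Fin M → Bool}
    (hZ : Function.Injective Z) (hφ : PrefixDet Z φ) {x y : Fin n} {q : Fin M}
    (h : Diff Z x y q) :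
    treePerm Z φ x < treePerm Z φ y ↔ xor (Z x q) (φ x q) = false := by
  unfold treePerm
  rw [dif_pos ⟨hZ, hφ⟩]
  exact (exists_treePerm Z φ hZ hφ).choose_spec x y q h

/-- Many sign patterns give many induced orderings. -/
lemma patterns_ge {n h : ℕ} (X : Finset (Fin n)) (Q : Finset (Equiv.Perm (Fin n)))
    (a b : Fin h → Fin n) (ha : ∀ r, a r ∈ X) (hb : ∀ r, b r ∈ X)
    (H : ∀ β : Fin h → Bool, ∃ ρ ∈ Q, ∀ r, (ρ (a r) < ρ (b r) ↔ β r = true)) :
    2 ^ h ≤ (Q.image (fun ρ => ind ρ X)).card := by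
  classical
  choose R hRQ hR using H
  have hinj : Function.Injective (fun β => ind (R β) X) := by
    intro β γ hβγ
    funext r
    have h1 : (a r, b r) ∈ ind (R β) X ↔ β r = true := by
      rw [Finset.mem_filter, Finset.mem_product]
      constructor
      · rintro ⟨_, h⟩
        exact (hR β r).mp h
      · intro h
        exact ⟨⟨ha r, hb r⟩, (hR β r).mpr h⟩
    have h2 : (a r, b r) ∈ ind (R γ) X ↔ γ r = true := by
      rw [Finset.mem_filter, Finset.mem_product]
      constructor
      · rintro ⟨_, h⟩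
        exact (hR γ r).mp h
      · intro h
        exact ⟨⟨ha r, hb r⟩, (hR γ r).mpr h⟩
    have h3 : ind (R β) X = ind (R γ) X := hβγ
    rw [h3] at h1
    have h4 : β r = true ↔ γ r = true := h1.symm.trans h2
    cases hβ : β r <;> cases hγ : γ r <;> simp_all
  calc 2 ^ h = (Finset.univ : Finset (Fin h → Bool)).card := by
        rw [Finset.card_univ, Fintype.card_fun, Fintype.card_bool, Fintype.card_fin]
    _ = (Finset.univ.image (fun β => ind (R β) X)).card := by
        rw [Finset.card_image_of_injective _ hinj]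
    _ ≤ (Q.image (fun ρ => ind ρ X)).card := by
        apply Finset.card_le_card
        intro s hs
        rw [Finset.mem_image] at hs ⊢
        obtain ⟨β, _, rfl⟩ := hs
        exact ⟨R β, hRQ β, rfl⟩

/-- A set of `k` strings branches on at least `⌈log₂ k⌉` levels. -/
lemma exists_levels {n M : ℕ} {Z : Fin n → Fin M → Bool} (hZ : Function.Injective Z)
    (X : Finset (Fin n)) : ∃ (a b : Fin (Nat.clog 2 X.card) → Fin n)
      (q : Fin (Nat.clog 2 X.card) → Fin M), Function.Injective q ∧
      ∀ r, a r ∈ X ∧ b r ∈ X ∧ Diff Z (a r) (b r) (q r) := by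
  classical
  let D : Finset (Fin M) := Finset.univ.filter (fun q => ∃ x ∈ X, ∃ y ∈ X, Diff Z x y q)
  have hcard : X.card ≤ 2 ^ D.card := by
    have hinj : Set.InjOn (fun x : Fin n => fun q : D => Z x q) X := by
      intro x hx y hy hxy
      by_contra hne
      obtain ⟨q, hq⟩ := exists_diff hZ hne
      have hqD : q ∈ D := Finset.mem_filter.mpr ⟨Finset.mem_univ _, x, hx, y, hy, hq⟩
      exact hq.2 (congrFun hxy ⟨q, hqD⟩)
    have := Finset.card_le_card_of_injOn (t := (Finset.univ : Finset (D → Bool)))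
      (fun x : Fin n => fun q : D => Z x q) (fun _ _ => Finset.mem_univ _) hinj
    rwa [Finset.card_univ, Fintype.card_fun, Fintype.card_bool, Fintype.card_coe] at this
  have hclog : Nat.clog 2 X.card ≤ D.card := Nat.clog_le_of_le_pow hcard
  obtain ⟨E, hED, hE⟩ := Finset.exists_subset_card_eq hclog
  let e := E.equivFinOfCardEq hE
  have hprop : ∀ r : Fin (Nat.clog 2 X.card), ∃ x ∈ X, ∃ y ∈ X, Diff Z x y (e.symm r) := by
    intro r
    exact (Finset.mem_filter.mp (hED (e.symm r).2)).2
  choose a ha b hb hab using hprop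
  refine ⟨a, b, fun r => e.symm r, ?_, fun r => ⟨ha r, hb r, hab r⟩⟩
  intro r s hrs
  exact e.symm.injective (Subtype.ext hrs)

end Pool.Agent.H14.Shatter
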