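import Mathlib
import Pool.Agent.H14.Universal
import Pool.Agent.H14.TreeOrder

set_option autoImplicit false

namespace Pool.Agent.H14.Shatter

open Finset

/-- binary digits -/
def ZA (n N : ℕ) : Fin n → Fin N → Bool := fun x q => Nat.testBit x q

lemma ZA_injective {n N : ℕ} (h : n ≤ 2 ^ N) : Function.Injective (ZA n N) := by
  intro x y hxy
  apply Fin.ext
  apply Nat.eq_of_testBit_eq
  intro i
  rcases lt_or_ge i N with hi | hi
  · exact congrFun hxy ⟨i, hi⟩
  · have hx : (x : ℕ) < 2 ^ i := lt_of_lt_of_le (x.2.trans_le h) (Nat.pow_le_pow_right (by norm_num) hi)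
    have hy : (y : ℕ) < 2 ^ i := lt_of_lt_of_le (y.2.trans_le h) (Nat.pow_le_pow_right (by norm_num) hi)
    rw [Nat.testBit_lt_two_pow hx, Nat.testBit_lt_two_pow hy]

/-- the digits of `x` in the block of `q`, before position `q` -/
def lab (n N L : ℕ) (x : Fin n) (q : Fin N) : Fin L → Bool := fun b =>
  if (q / L) * L + b < q then Nat.testBit x ((q / L) * L + b) else false

lemma lab_eq_of_agree {n N L : ℕ} {x y : Fin n} {q : Fin N}
    (h : ∀ q' < q, ZA n N x q' = ZA n N y q') : lab n N L x q = lab n N L y q := by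
  funext b
  unfold lab
  split_ifs with hb
  · exact h ⟨(q / L) * L + b, hb.trans q.2⟩ hb
  · rfl

lemma testBit_eq_of_lab {n N L : ℕ} {x y : Fin n} {q : Fin N}
    (h : lab n N L x q = lab n N L y q) (b : ℕ) (hb : (q / L) * L + b < q) (hbL : b < L) :
    Nat.testBit x ((q / L) * L + b) = Nat.testBit y ((q / L) * L + b) := by
  have := congrFun h ⟨b, hbL⟩
  unfold lab at this
  rwa [if_pos hb, if_pos hb] at this

/-- the labels -/
abbrev Lbl (N L : ℕ) := Fin N × (Fin L → Bool)

/-- flips given by a function of the label -/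
def phiA (n N L : ℕ) (F : Lbl N L → Bool) : Fin n → Fin N → Bool :=
  fun x q => F (q, lab n N L x q)

lemma phiA_prefixDet {n N L : ℕ} (F : Lbl N L → Bool) : PrefixDet (ZA n N) (phiA n N L F) := by
  intro x y q h
  unfold phiA
  rw [lab_eq_of_agree h]

/-- the string that starts with block `i` -/
def ZB (n N L i : ℕ) : Fin n → Fin (L + N) → Bool := fun x q =>
  if (q : ℕ) < L then Nat.testBit x (i * L + q) else Nat.testBit x (q - L)

lemma ZB_injective {n N L i : ℕ} (h : n ≤ 2 ^ N) : Function.Injective (ZB n N L i) := by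
  intro x y hxy
  apply ZA_injective h
  funext q
  have := congrFun hxy ⟨L + q, by omega⟩
  unfold ZB at this
  simp only at this
  rw [if_neg (by omega), if_neg (by omega), Nat.add_sub_cancel_left] at this
  exact this

/-- flips given by a sign vector on the levels -/
def phiB (n M : ℕ) (g : Fin M → Bool) : Fin n → Fin M → Bool := fun _ q => g q

lemma phiB_prefixDet {n M : ℕ} (Z : Fin n → Fin M → Bool) (g : Fin M → Bool) :
    PrefixDet Z (phiB n M g) := fun _ _ _ _ => rfl

/-- Two nodes on the same level with the same label. -/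
def Sync (n N L : ℕ) (x1 x2 x3 x4 : Fin n) (q q0 : Fin N) : Prop :=
  Diff (ZA n N) x1 x2 q ∧ Diff (ZA n N) x3 x4 q ∧ ZA n N x1 q = false ∧ ZA n N x3 q = false ∧
    lab n N L x1 q = lab n N L x3 q ∧ q0 < q ∧ Diff (ZA n N) x1 x3 q0

/-- Either all labels of branching nodes are different, or two coincide. -/
lemma structure_lemma {n N L : ℕ} (hn : n ≤ 2 ^ N) (X : Finset (Fin n)) :
    (∃ (a b : Fin (X.card - 1) → Fin n) (q : Fin (X.card - 1) → Fin N),
      Function.Injective (fun r => ((q r, lab n N L (a r) (q r)) : Lbl N L)) ∧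
        ∀ r, a r ∈ X ∧ b r ∈ X ∧ Diff (ZA n N) (a r) (b r) (q r)) ∨
    (∃ x1 ∈ X, ∃ x2 ∈ X, ∃ x3 ∈ X, ∃ x4 ∈ X, ∃ q q0, Sync n N L x1 x2 x3 x4 q q0) := by
  classical
  have hZ := ZA_injective hn
  have hφ : PrefixDet (ZA n N) (fun _ _ => false) := fun _ _ _ _ => rfl
  let K := key (ZA n N) (fun _ _ => false)
  have hK : Function.Injective K := key_injective hZ hφ
  let X' := X.filter (fun x => ∃ y ∈ X, K y < K x)
  have hX' : X.card - 1 ≤ X'.card := by
    rcases X.eq_empty_or_nonempty with h | h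
    · subst h; simp
    · obtain ⟨m, hm, hmin⟩ := Finset.exists_min_image X K h
      have hsub : X.erase m ⊆ X' := by
        intro x hx
        rw [Finset.mem_erase] at hx
        refine Finset.mem_filter.mpr ⟨hx.2, m, hm, ?_⟩
        exact lt_of_le_of_ne (hmin x hx.2) (fun he => hx.1 (hK he).symm)
      have := Finset.card_le_card hsub
      rwa [Finset.card_erase_of_mem hm] at this
  have hpred : ∀ x : X', ∃ y ∈ X, K y < K x ∧ ∀ z ∈ X, K z < K x → K z ≤ K y := by
    intro x
    have hx := (Finset.mem_filter.mp x.2).2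
    have hne : (X.filter (fun y => K y < K x)).Nonempty := by
      obtain ⟨y, hy, hy'⟩ := hx
      exact ⟨y, Finset.mem_filter.mpr ⟨hy, hy'⟩⟩
    obtain ⟨m, hm, hmax⟩ := Finset.exists_max_image _ K hne
    rw [Finset.mem_filter] at hm
    exact ⟨m, hm.1, hm.2, fun z hz hz' => hmax z (Finset.mem_filter.mpr ⟨hz, hz'⟩)⟩
  choose p hpX hpK hpmax using hpred
  have hdiff : ∀ x : X', ∃ q, Diff (ZA n N) (p x) x q := by
    intro x
    apply exists_diff hZ
    intro he
    have := hpK x
    rw [he] at this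
    exact lt_irrefl _ this
  choose q hq using hdiff
  have hbit : ∀ x : X', ZA n N (p x) (q x) = false ∧ ZA n N x (q x) = true := by
    intro x
    have h1 := (key_lt_iff hφ (hq x)).mp (hpK x)
    have h2 := (hq x).2
    revert h1 h2
    cases ZA n N (p x) (q x) <;> cases ZA n N x (q x) <;> decide
  by_cases hinj : Function.Injective (fun x : X' => ((q x, lab n N L (p x) (q x)) : Lbl N L))
  · left
    obtain ⟨E, hE, hEc⟩ := Finset.exists_subset_card_eq (s := X') hX'
    let e := E.equivFinOfCardEq hEc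
    let f : Fin (X.card - 1) → X' := fun r => ⟨(e.symm r : Fin n), hE (e.symm r).2⟩
    have hf : Function.Injective f := by
      intro r s hrs
      have : ((e.symm r : E) : Fin n) = e.symm s := congrArg (fun z : X' => (z : Fin n)) hrs
      exact e.symm.injective (Subtype.ext this)
    refine ⟨fun r => p (f r), fun r => f r, fun r => q (f r), hinj.comp hf, ?_⟩
    intro r
    exact ⟨hpX _, (Finset.mem_filter.mp (f r).2).1, hq _⟩
  · right
    -- general statement for an ordered pair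
    have main : ∀ x x' : X', K x < K x' → q x = q x' →
        lab n N L (p x) (q x) = lab n N L (p x') (q x') →
        (∃ x1 ∈ X, ∃ x2 ∈ X, ∃ x3 ∈ X, ∃ x4 ∈ X, ∃ q q0, Sync n N L x1 x2 x3 x4 q q0) := by
      intro x x' hxx' hqq hlab
      have hexists : ∃ q' < q x, ZA n N (p x) q' ≠ ZA n N (p x') q' := by
        by_contra hcon
        push Not at hcon
        have hle := hpmax x' x (Finset.mem_filter.mp x.2).1 hxx'
        have hd : Diff (ZA n N) (p x') x (q x) := by
          constructor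
          · intro q' hq'
            rw [← hcon q' hq', (hq x).1 q' hq']
          · rw [(hbit x).2]
            have := (hbit x').1
            rw [← hqq] at this
            rw [this]
            decide
        have hlt : K (p x') < K x := by
          apply (key_lt_iff hφ hd).mpr
          have := (hbit x').1
          rw [← hqq] at this
          rw [this]
          rfl
        exact absurd hle (not_le.mpr hlt)
      obtain ⟨q', hq', hne⟩ := hexists
      have hpp : p x ≠ p x' := by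
        intro he
        rw [he] at hne
        exact hne rfl
      obtain ⟨q0, hq0⟩ := exists_diff hZ hpp
      have hq0le : q0 ≤ q' := by
        by_contra h
        exact hne (hq0.1 q' (not_le.mp h))
      refine ⟨p x, hpX x, x, (Finset.mem_filter.mp x.2).1, p x', hpX x', x',
        (Finset.mem_filter.mp x'.2).1, q x, q0, hq x, ?_, (hbit x).1, ?_, ?_, ?_, hq0⟩
      · rw [hqq]; exact hq x'
      · rw [hqq]; exact (hbit x').1
      · rw [hlab, hqq]
      · exact lt_of_le_of_lt hq0le hq'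
    rw [Function.Injective] at hinj
    push Not at hinj
    obtain ⟨x, x', hxx', hne⟩ := hinj
    simp only [Prod.mk.injEq] at hxx'
    obtain ⟨hqq, hlab⟩ := hxx'
    have hKne : K x ≠ K x' := by
      intro he
      exact hne (Subtype.ext (hK he))
    rcases lt_or_gt_of_ne hKne with h | h
    · exact main x x' h hqq hlab
    · exact main x' x h hqq.symm hlab.symm

lemma Sync.second_bit {n N L : ℕ} {x1 x2 x3 x4 : Fin n} {q q0 : Fin N}
    (h : Sync n N L x1 x2 x3 x4 q q0) : ZA n N x2 q = true ∧ ZA n N x4 q = true := by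
  obtain ⟨h1, h2, h3, h4, _⟩ := h
  have e1 := h1.2
  have e2 := h2.2
  rw [h3] at e1
  rw [h4] at e2
  revert e1 e2
  cases ZA n N x2 q <;> cases ZA n N x4 q <;> decide

/-- Property U of the forward tree orders. -/
lemma Sync.propU {n N L : ℕ} {x1 x2 x3 x4 : Fin n} {q q0 : Fin N}
    (h : Sync n N L x1 x2 x3 x4 q q0) (hn : n ≤ 2 ^ N) (F : Lbl N L → Bool) :
    let ρ := treePerm (ZA n N) (phiA n N L F)
    (ρ x1 < ρ x3 ↔ ρ x2 < ρ x3) ∧ (ρ x1 < ρ x3 ↔ ρ x1 < ρ x4) := by
  intro ρ
  obtain ⟨h1, h2, _, _, _, h6, h7⟩ := h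
  have hZ := ZA_injective hn
  have hφ := phiA_prefixDet (n := n) F
  have d13 : Diff (ZA n N) x1 x3 q0 := h7
  have d23 : Diff (ZA n N) x2 x3 q0 :=
    ⟨fun q' hq' => (h1.1 q' (hq'.trans h6)).symm.trans (h7.1 q' hq'), by
      rw [← h1.1 q0 h6]; exact h7.2⟩
  have d14 : Diff (ZA n N) x1 x4 q0 :=
    ⟨fun q' hq' => (h7.1 q' hq').trans (h2.1 q' (hq'.trans h6)), by
      rw [← h2.1 q0 h6]; exact h7.2⟩
  have e13 := treePerm_lt_iff hZ hφ d13
  have e23 := treePerm_lt_iff hZ hφ d23
  have e14 := treePerm_lt_iff hZ hφ d14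
  have hf : phiA n N L F x1 q0 = phiA n N L F x2 q0 :=
    hφ x1 x2 q0 (fun q' hq' => h1.1 q' (hq'.trans h6))
  have hb : ZA n N x1 q0 = ZA n N x2 q0 := h1.1 q0 h6
  refine ⟨?_, ?_⟩
  · rw [e13, e23, hf, hb]
  · rw [e13, e14]

/-- Property V of the block-first orders. -/
lemma Sync.propV {n N L : ℕ} (hL : 0 < L) {x1 x2 x3 x4 : Fin n} {q q0 : Fin N}
    (h : Sync n N L x1 x2 x3 x4 q q0) (hn : n ≤ 2 ^ N) (g : Fin (L + N) → Bool) :
    let ρ := treePerm (ZB n N L ((q : ℕ) / L)) (phiB n (L + N) g)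
    (ρ x1 < ρ x2 ↔ ρ x1 < ρ x4) ∧ (ρ x1 < ρ x2 ↔ ρ x3 < ρ x2) := by
  intro ρ
  have hbits := h.second_bit
  obtain ⟨h1, h2, h3, h4, h5, _, _⟩ := h
  have hZ : Function.Injective (ZB n N L ((q : ℕ) / L)) := ZB_injective hn
  have hφ := phiB_prefixDet (ZB n N L ((q : ℕ) / L)) g
  have hmod : (q : ℕ) % L < L := Nat.mod_lt _ hL
  have hdm : (q : ℕ) / L * L + (q : ℕ) % L = q := by
    rw [mul_comm]; exact Nat.div_add_mod _ _
  let b : Fin (L + N) := ⟨(q : ℕ) % L, by omega⟩
  -- values of the block-first strings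
  have hval : ∀ (x : Fin n) (q' : Fin (L + N)), (q' : ℕ) < L →
      ZB n N L ((q : ℕ) / L) x q' = Nat.testBit x ((q : ℕ) / L * L + q') := by
    intro x q' hq'
    unfold ZB
    rw [if_pos hq']
  have hb1 : ∀ x : Fin n, ZB n N L ((q : ℕ) / L) x b = ZA n N x q := by
    intro x
    rw [hval x b hmod]
    unfold ZA
    simp only [b]
    rw [hdm]
  have agree12 : ∀ q' < b, ZB n N L ((q : ℕ) / L) x1 q' = ZB n N L ((q : ℕ) / L) x2 q' := by
    intro q' hq'
    have hq'' : (q' : ℕ) < (q : ℕ) % L := hq'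
    rw [hval x1 q' (by omega), hval x2 q' (by omega)]
    exact h1.1 ⟨(q : ℕ) / L * L + q', by omega⟩ (by rw [Fin.lt_def]; simp only; omega)
  have agree34 : ∀ q' < b, ZB n N L ((q : ℕ) / L) x3 q' = ZB n N L ((q : ℕ) / L) x4 q' := by
    intro q' hq'
    have hq'' : (q' : ℕ) < (q : ℕ) % L := hq'
    rw [hval x3 q' (by omega), hval x4 q' (by omega)]
    exact h2.1 ⟨(q : ℕ) / L * L + q', by omega⟩ (by rw [Fin.lt_def]; simp only; omega)
  have agree13 : ∀ q' < b, ZB n N L ((q : ℕ) / L) x1 q' = ZB n N L ((q : ℕ) / L) x3 q' := by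
    intro q' hq'
    have hq'' : (q' : ℕ) < (q : ℕ) % L := hq'
    rw [hval x1 q' (by omega), hval x3 q' (by omega)]
    exact testBit_eq_of_lab h5 q' (by omega) (by omega)
  have d12 : Diff (ZB n N L ((q : ℕ) / L)) x1 x2 b :=
    ⟨agree12, by rw [hb1, hb1, h3, hbits.1]; decide⟩
  have d14 : Diff (ZB n N L ((q : ℕ) / L)) x1 x4 b :=
    ⟨fun q' hq' => (agree13 q' hq').trans (agree34 q' hq'), by rw [hb1, hb1, h3, hbits.2]; decide⟩
  have d32 : Diff (ZB n N L ((q : ℕ) / L)) x3 x2 b :=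
    ⟨fun q' hq' => (agree13 q' hq').symm.trans (agree12 q' hq'), by
      rw [hb1, hb1, h4, hbits.1]; decide⟩
  have e12 := treePerm_lt_iff hZ hφ d12
  have e14 := treePerm_lt_iff hZ hφ d14
  have e32 := treePerm_lt_iff hZ hφ d32
  refine ⟨?_, ?_⟩
  · rw [e12, e14]
  · rw [e12, e32, hb1, hb1, h3, h4]
    exact Iff.rfl

lemma incompatible {n : ℕ} {x1 x2 x3 x4 : Fin n}
    (h23 : x2 ≠ x3) (ρ σ : Equiv.Perm (Fin n))
    (hU : (ρ x1 < ρ x3 ↔ ρ x2 < ρ x3) ∧ (ρ x1 < ρ x3 ↔ ρ x1 < ρ x4))
    (hV : (σ x1 < σ x2 ↔ σ x1 < σ x4) ∧ (σ x1 < σ x2 ↔ σ x3 < σ x2))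
    (e14 : ρ x1 < ρ x4 ↔ σ x1 < σ x4) (e23 : ρ x2 < ρ x3 ↔ σ x2 < σ x3) : False := by
  obtain ⟨u1, u2⟩ := hU
  obtain ⟨v1, v2⟩ := hV
  by_cases h : σ x1 < σ x2
  · have h1 := v1.mp h
    have h2 := v2.mp h
    have h3 := u2.mpr (e14.mpr h1)
    have h4 := e23.mp (u1.mp h3)
    exact lt_asymm h2 h4
  · have h1 : ¬ σ x1 < σ x4 := fun hh => h (v1.mpr hh)
    have h2 : ¬ σ x3 < σ x2 := fun hh => h (v2.mpr hh)
    have h3 : σ x2 < σ x3 := by
      rcases lt_trichotomy (σ x2) (σ x3) with hh | hh | hh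
      · exact hh
      · exact absurd (σ.injective hh) h23
      · exact absurd hh h2
    have h4 := u1.mpr (e23.mpr h3)
    exact h1 (e14.mp (u2.mp h4))

end Pool.Agent.H14.Shatter
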