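import Mathlib
import Pool.Agent.H14.Universal
import Pool.Agent.H14.TreeOrder
import Pool.Agent.H14.BlockFamily

set_option autoImplicit false

namespace Pool.Agent.H14.Shatter

open Finset

lemma xor_xor_not (z b : Bool) : xor z (xor z (!b)) = false ↔ b = true := by
  cases z <;> cases b <;> decide

/-- Patterns of forward tree orders from distinct labels. -/
lemma forward_patterns {n N L h : ℕ} (hn : n ≤ 2 ^ N) (X : Finset (Fin n))
    (F : Finset (Lbl N L → Bool)) (hF : Universal h F)
    (a b : Fin h → Fin n) (q : Fin h → Fin N)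
    (hinj : Function.Injective (fun r => ((q r, lab n N L (a r) (q r)) : Lbl N L)))
    (hab : ∀ r, a r ∈ X ∧ b r ∈ X ∧ Diff (ZA n N) (a r) (b r) (q r)) :
    2 ^ h ≤ ((F.image (fun f => treePerm (ZA n N) (phiA n N L f))).image
      (fun ρ => ind ρ X)).card := by
  classical
  apply patterns_ge X _ a b (fun r => (hab r).1) (fun r => (hab r).2.1)
  intro β
  obtain ⟨f, hf, hfr⟩ := hF _ hinj (fun r => xor (ZA n N (a r) (q r)) (!β r))
  refine ⟨_, Finset.mem_image_of_mem _ hf, ?_⟩
  intro r
  rw [treePerm_lt_iff (ZA_injective hn) (phiA_prefixDet f) (hab r).2.2]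
  have : phiA n N L f (a r) (q r) = xor (ZA n N (a r) (q r)) (!β r) := hfr r
  rw [this]
  exact xor_xor_not _ _

/-- Patterns of block-first orders. -/
lemma block_patterns {n N L h i : ℕ} (hn : n ≤ 2 ^ N) (X : Finset (Fin n))
    (G : Finset (Fin (L + N) → Bool)) (hG : Universal h G)
    (a b : Fin h → Fin n) (q : Fin h → Fin (L + N)) (hinj : Function.Injective q)
    (hab : ∀ r, a r ∈ X ∧ b r ∈ X ∧ Diff (ZB n N L i) (a r) (b r) (q r)) :
    2 ^ h ≤ ((G.image (fun g => treePerm (ZB n N L i) (phiB n (L + N) g))).image
      (fun ρ => ind ρ X)).card := by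
  classical
  apply patterns_ge X _ a b (fun r => (hab r).1) (fun r => (hab r).2.1)
  intro β
  obtain ⟨g, hg, hgr⟩ := hG _ hinj (fun r => xor (ZB n N L i (a r) (q r)) (!β r))
  refine ⟨_, Finset.mem_image_of_mem _ hg, ?_⟩
  intro r
  rw [treePerm_lt_iff (ZB_injective hn) (phiB_prefixDet _ g) (hab r).2.2]
  have : phiB n (L + N) g (a r) (q r) = xor (ZB n N L i (a r) (q r)) (!β r) := hgr r
  rw [this]
  exact xor_xor_not _ _

/-- The combinatorial core: a small family with many induced orderings on each `k`-set. -/
theorem family {n N L k : ℕ} (hn : n ≤ 2 ^ N) (hL : 0 < L) (hk : 4 ≤ k)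
    (F1 F0 : Finset (Lbl N L → Bool)) (hF1 : Universal (Nat.clog 2 k + 1) F1)
    (hF0 : Universal (Nat.clog 2 k) F0)
    (G : Finset (Fin (L + N) → Bool)) (hG : Universal (Nat.clog 2 k) G) :
    ∃ P : Finset (Equiv.Perm (Fin n)),
      P.card ≤ F1.card + F0.card + (N / L + 1) * G.card ∧
      ∀ X : Finset (Fin n), X.card = k →
        2 ^ (Nat.clog 2 k + 1) ≤ (P.image (fun ρ => ind ρ X)).card := by
  classical
  let PA1 := F1.image (fun f => treePerm (ZA n N) (phiA n N L f))
  let PA0 := F0.image (fun f => treePerm (ZA n N) (phiA n N L f))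
  let PB : ℕ → Finset (Equiv.Perm (Fin n)) := fun i =>
    G.image (fun g => treePerm (ZB n N L i) (phiB n (L + N) g))
  let P := (PA1 ∪ PA0) ∪ (Finset.range (N / L + 1)).biUnion PB
  refine ⟨P, ?_, ?_⟩
  · calc P.card ≤ (PA1 ∪ PA0).card + ((Finset.range (N / L + 1)).biUnion PB).card :=
          Finset.card_union_le _ _
      _ ≤ (PA1.card + PA0.card) + ∑ i ∈ Finset.range (N / L + 1), (PB i).card :=
          Nat.add_le_add (Finset.card_union_le _ _) Finset.card_biUnion_le
      _ ≤ (F1.card + F0.card) + ∑ _i ∈ Finset.range (N / L + 1), G.card :=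
          Nat.add_le_add (Nat.add_le_add Finset.card_image_le Finset.card_image_le)
            (Finset.sum_le_sum (fun i _ => Finset.card_image_le))
      _ = F1.card + F0.card + (N / L + 1) * G.card := by
          rw [Finset.sum_const, Finset.card_range, smul_eq_mul]
  · intro X hX
    have hPA1 : PA1 ⊆ P := (Finset.subset_union_left).trans Finset.subset_union_left
    have hPA0 : PA0 ⊆ P := (Finset.subset_union_right).trans Finset.subset_union_left
    rcases structure_lemma (L := L) hn X with hlab | hsync
    · -- all labels distinct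
      rw [hX] at hlab
      obtain ⟨a, b, q, hinj, hab⟩ := hlab
      have hle : Nat.clog 2 k + 1 ≤ k - 1 := by
        have : Nat.clog 2 k ≤ k - 2 := by
          apply Nat.clog_le_of_le_pow
          have h2 : ∀ m : ℕ, m + 4 ≤ 2 ^ (m + 2) := by
            intro m
            induction m with
            | zero => norm_num
            | succ m ih =>
              rw [show m + 1 + 2 = (m + 2) + 1 by ring, pow_succ]
              omega
          have h3 := h2 (k - 4)
          have h4 : k - 4 + 4 = k := by omega
          have h5 : k - 4 + 2 = k - 2 := by omega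
          rwa [h4, h5] at h3
        omega
      have h1 := forward_patterns hn X F1 hF1 (fun r => a (Fin.castLE hle r))
        (fun r => b (Fin.castLE hle r)) (fun r => q (Fin.castLE hle r))
        (hinj.comp (Fin.castLE_injective hle)) (fun r => hab _)
      refine h1.trans (Finset.card_le_card ?_)
      exact Finset.image_subset_image hPA1
    · -- two equal labels
      obtain ⟨x1, hx1, x2, hx2, x3, hx3, x4, hx4, q, q0, hs⟩ := hsync
      have hi : (q : ℕ) / L < N / L + 1 :=
        Nat.lt_succ_of_le (Nat.div_le_div_right q.2.le)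
      have hPBi : PB ((q : ℕ) / L) ⊆ P := by
        refine Finset.Subset.trans ?_ Finset.subset_union_right
        exact Finset.subset_biUnion_of_mem PB (Finset.mem_range.mpr hi)
      have hlevA := exists_levels (ZA_injective hn) X
      rw [hX] at hlevA
      obtain ⟨a, b, qa, hqa, hab⟩ := hlevA
      have hA := forward_patterns hn X F0 hF0 a b qa
        (fun r s hrs => hqa (congrArg Prod.fst hrs)) hab
      have hlevB := exists_levels (ZB_injective (L := L) (i := (q : ℕ) / L) hn) X
      rw [hX] at hlevB
      obtain ⟨a', b', qb, hqb, hab'⟩ := hlevB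
      have hB := block_patterns hn X G hG a' b' qb hqb hab'
      have hdisj : Disjoint (PA0.image (fun ρ => ind ρ X))
          ((PB ((q : ℕ) / L)).image (fun ρ => ind ρ X)) := by
        rw [Finset.disjoint_left]
        intro s hs1 hs2
        rw [Finset.mem_image] at hs1 hs2
        obtain ⟨ρ, hρ, hρs⟩ := hs1
        obtain ⟨σ, hσ, hσs⟩ := hs2
        obtain ⟨f, _, rfl⟩ := Finset.mem_image.mp hρ
        obtain ⟨g, _, rfl⟩ := Finset.mem_image.mp hσ
        have heq : ∀ x ∈ X, ∀ y ∈ X,
            (treePerm (ZA n N) (phiA n N L f) x < treePerm (ZA n N) (phiA n N L f) y ↔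
              treePerm (ZB n N L ((q : ℕ) / L)) (phiB n (L + N) g) x <
                treePerm (ZB n N L ((q : ℕ) / L)) (phiB n (L + N) g) y) := by
          intro x hx y hy
          have h1 : (x, y) ∈ ind (treePerm (ZA n N) (phiA n N L f)) X ↔
              (x, y) ∈ ind (treePerm (ZB n N L ((q : ℕ) / L)) (phiB n (L + N) g)) X := by
            rw [hρs, hσs]
          rw [Finset.mem_filter, Finset.mem_filter, Finset.mem_product] at h1
          simpa [hx, hy] using h1
        have hne23 : x2 ≠ x3 := by
          intro he
          have h1 := hs.second_bit.1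
          have h2 := hs.2.2.2.1
          rw [he, h2] at h1
          exact Bool.false_ne_true h1
        exact incompatible hne23 _ _ (hs.propU hn f) (hs.propV hL hn g)
          (heq x1 hx1 x4 hx4) (heq x2 hx2 x3 hx3)
      calc 2 ^ (Nat.clog 2 k + 1) = 2 ^ Nat.clog 2 k + 2 ^ Nat.clog 2 k := by
            rw [pow_succ]; ring
        _ ≤ (PA0.image (fun ρ => ind ρ X)).card +
            ((PB ((q : ℕ) / L)).image (fun ρ => ind ρ X)).card := Nat.add_le_add hA hB
        _ = (PA0.image (fun ρ => ind ρ X) ∪
            (PB ((q : ℕ) / L)).image (fun ρ => ind ρ X)).card :=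
            (Finset.card_union_of_disjoint hdisj).symm
        _ ≤ (P.image (fun ρ => ind ρ X)).card := by
            apply Finset.card_le_card
            exact Finset.union_subset (Finset.image_subset_image hPA0)
              (Finset.image_subset_image hPBi)

end Pool.Agent.H14.Shatter
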