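import Mathlib

set_option autoImplicit false

namespace Pool.Agent.H14.DPNumeric

lemma log_two_lo : (0.6931471803 : ℝ) < Real.log 2 := Real.log_two_gt_d9
lemma log_two_hi : Real.log 2 < 0.6931471808 := Real.log_two_lt_d9

/-- total size in terms of `s = √(N log N)` -/
lemma tot (A Nr l s F1 F0 G q P : ℝ) (hA : 0 ≤ A) (hss : s * s = Nr * l) (hs2 : 2 ≤ s)
    (hls : l ≤ s) (hl1 : 1 ≤ l) (hF1 : F1 ≤ A * (3 * s) + 2)
    (hF0 : F0 ≤ A * (3 * s) + 2) (hG : G ≤ A * (3 * l) + 2) (hG0 : 0 ≤ G) (hq : q ≤ Nr / s)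
    (hN0 : 0 ≤ Nr)
    (hP : P ≤ F1 + F0 + (q + 1) * G) : P ≤ (12 * A + 5) * s := by
  have hs : 0 < s := by linarith
  have hNs : Nr / s * l = s := by
    rw [div_mul_eq_mul_div, ← hss]
    field_simp
  have hNs0 : 0 ≤ Nr / s := by positivity
  have hNs' : Nr / s ≤ s := by
    rw [div_le_iff₀ hs, hss]
    nlinarith
  have h1 : (q + 1) * G ≤ (Nr / s + 1) * (A * (3 * l) + 2) :=
    mul_le_mul (by linarith) hG hG0 (by linarith)
  have h2 : (Nr / s + 1) * (A * (3 * l) + 2) =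
      3 * A * (Nr / s * l) + 2 * (Nr / s) + 3 * (A * l) + 2 := by ring
  rw [h2, hNs] at h1
  have h3 : A * l ≤ A * s := mul_le_mul_of_nonneg_left hls hA
  linarith

/-- basic facts on `N`, `l = log N`, `s = √(N l)` -/
lemma basics (N : ℕ) (hN4 : 4 ≤ N) :
    1 ≤ Real.log N ∧ Real.log N ≤ N ∧
    Real.sqrt (N * Real.log N) * Real.sqrt (N * Real.log N) = N * Real.log N ∧
    2 ≤ Real.sqrt (N * Real.log N) ∧ Real.log N ≤ Real.sqrt (N * Real.log N) ∧
    Real.sqrt (N * Real.log N) ≤ N := by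
  have hNr : (4 : ℝ) ≤ N := by exact_mod_cast hN4
  have hlog4 : Real.log 4 = 2 * Real.log 2 := by
    rw [show (4 : ℝ) = 2 ^ 2 by norm_num, Real.log_pow]; norm_num
  have hlogN : 2 * Real.log 2 ≤ Real.log N := by
    rw [← hlog4]
    exact Real.log_le_log (by norm_num) hNr
  have h2 := log_two_lo
  have hl1 : 1 ≤ Real.log N := by linarith
  have hlN : Real.log N ≤ N := by
    have := Real.log_le_sub_one_of_pos (show (0 : ℝ) < N by linarith)
    linarith
  generalize Real.log N = l at *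
  generalize (N : ℝ) = x at *
  have hNl : 0 ≤ x * l := by positivity
  refine ⟨hl1, hlN, Real.mul_self_sqrt hNl, ?_, ?_, ?_⟩
  · exact Real.le_sqrt_of_sq_le (by nlinarith)
  · exact Real.le_sqrt_of_sq_le (by nlinarith)
  · exact (Real.sqrt_le_left (by linarith)).mpr (by nlinarith)

/-- from `N = ⌈log₂ n⌉` to `log n` -/
lemma final (n : ℕ) (hn : 16 ≤ n) (N : ℕ) (hN : N = Nat.clog 2 n) :
    Real.sqrt (N * Real.log N) ≤ 2 * Real.sqrt (Real.log n * Real.log (Real.log n)) := by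
  have hN4 : 4 ≤ N := by
    have hnN : n ≤ 2 ^ N := hN ▸ Nat.le_pow_clog (by norm_num) n
    by_contra hlt
    push Not at hlt
    have h1 : 2 ^ N ≤ 2 ^ 3 := Nat.pow_le_pow_right (by norm_num) (by omega)
    omega
  obtain ⟨hl1, hlN, -, -, -, -⟩ := basics N hN4
  have hl2 := log_two_lo
  have hl2' := log_two_hi
  have hnr : (16 : ℝ) ≤ n := by exact_mod_cast hn
  have hlog16 : Real.log 16 = 4 * Real.log 2 := by
    rw [show (16 : ℝ) = 2 ^ 4 by norm_num, Real.log_pow]; norm_num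
  have hlogn : 4 * Real.log 2 ≤ Real.log n := by
    rw [← hlog16]
    exact Real.log_le_log (by norm_num) hnr
  have hNr : (4 : ℝ) ≤ N := by exact_mod_cast hN4
  have hN2 : (N : ℝ) ≤ 2 * Real.log n := by
    have h1 : 2 ^ (N - 1) < n := by
      have := Nat.pow_pred_clog_lt_self (b := 2) (by norm_num) (x := n) (by omega)
      rwa [← hN] at this
    have h2 : ((2 : ℝ)) ^ (N - 1) < n := by exact_mod_cast h1
    have h3 := Real.log_lt_log (by positivity) h2
    rw [Real.log_pow, Nat.cast_sub (by omega), Nat.cast_one] at h3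
    have h4 : ((N : ℝ) - 1) * 0.6931471803 ≤ ((N : ℝ) - 1) * Real.log 2 :=
      mul_le_mul_of_nonneg_left hl2.le (by linarith)
    linarith
  have hlogN2 : Real.log N ≤ 2 * Real.log (Real.log n) := by
    have h1 : Real.log N ≤ Real.log (2 * Real.log n) := Real.log_le_log (by linarith) hN2
    rw [Real.log_mul (by norm_num) (by linarith)] at h1
    have h2 : Real.log 2 ≤ Real.log (Real.log n) :=
      Real.log_le_log (by norm_num) (by linarith)
    linarith
  have h1 : (N : ℝ) * Real.log N ≤ 2 ^ 2 * (Real.log n * Real.log (Real.log n)) := by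
    have h2 : (N : ℝ) * Real.log N ≤ (2 * Real.log n) * (2 * Real.log (Real.log n)) :=
      mul_le_mul hN2 hlogN2 (by linarith) (by linarith)
    linarith
  calc Real.sqrt (N * Real.log N)
      ≤ Real.sqrt (2 ^ 2 * (Real.log n * Real.log (Real.log n))) := Real.sqrt_le_sqrt h1
    _ = 2 * Real.sqrt (Real.log n * Real.log (Real.log n)) := by
        rw [Real.sqrt_mul (by norm_num), Real.sqrt_sq (by norm_num)]

/-- logarithm of twice the number of labels -/
lemma logT (N L : ℕ) (s : ℝ) (hN4 : 4 ≤ N) (hls : Real.log N ≤ s) (hs2 : 2 ≤ s)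
    (hL : (L : ℝ) ≤ s + 1) :
    Real.log (2 * ((N * 2 ^ L : ℕ) : ℝ)) ≤ 3 * s := by
  have hNr : (4 : ℝ) ≤ N := by exact_mod_cast hN4
  have h1 : (2 : ℝ) * ((N * 2 ^ L : ℕ) : ℝ) = N * 2 ^ (L + 1) := by
    push_cast; rw [pow_succ]; ring
  rw [h1, Real.log_mul (by linarith) (by positivity), Real.log_pow]
  have hl2 := log_two_hi
  have hl2' := log_two_lo
  have h4 : (((L + 1 : ℕ) : ℝ)) ≤ 2 * s := by push_cast; linarith
  have h3 : ((L + 1 : ℕ) : ℝ) * Real.log 2 ≤ 2 * s * 1 :=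
    mul_le_mul h4 (by linarith) (by linarith) (by linarith)
  linarith

lemma logG (N L : ℕ) (hN4 : 4 ≤ N) (hL : (L : ℝ) ≤ N + 1) :
    Real.log (2 * ((L + N : ℕ) : ℝ)) ≤ 3 * Real.log N := by
  have hNr : (4 : ℝ) ≤ N := by exact_mod_cast hN4
  have hL0 : (0 : ℝ) ≤ L := Nat.cast_nonneg L
  have h1 : (2 : ℝ) * ((L + N : ℕ) : ℝ) ≤ (N : ℝ) ^ 3 := by
    push_cast
    have h3 : (2 : ℝ) * (L + N) ≤ 5 * N := by linarith
    have h4 : (16 : ℝ) * N ≤ (N : ℝ) ^ 3 := by
      have h5 : (16 : ℝ) ≤ (N : ℝ) ^ 2 := by nlinarith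
      nlinarith
    linarith
  calc Real.log (2 * ((L + N : ℕ) : ℝ)) ≤ Real.log ((N : ℝ) ^ 3) := by
        apply Real.log_le_log _ h1
        push_cast
        linarith
    _ = 3 * Real.log N := by rw [Real.log_pow]; norm_num

end Pool.Agent.H14.DPNumeric
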