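import Mathlib

set_option autoImplicit false
open Filter Topology

namespace Pool.Agent.H14.ManyColor

/-- the edges of the complete graph on `n` vertices -/
abbrev Edge (n : ℕ) := {e : Sym2 (Fin n) // ¬ e.IsDiag}

/-- the colourings in which every `k`-set of vertices spans fewer than `s` colours -/
abbrev Good (k s r n : ℕ) := {c : Edge n → Fin r //
              ∀ S : Finset (Fin n), S.card = k →
                ((Finset.univ.filter
                    (fun e : {e : Sym2 (Fin n) // ¬ e.IsDiag} => e.1 ∈ S.sym2)).image c).card < s}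

/-- The colouring obtained from a table of colours for the crossing pairs. -/
def col (n m r : ℕ) (hr : 0 < r) (f : {i : Fin n // (i : ℕ) < m} × {j : Fin n // m ≤ (j : ℕ)} → Fin r) :
    Edge n → Fin r := fun e =>
  if h : ((e.1.inf : Fin n) : ℕ) < m ∧ m ≤ ((e.1.sup : Fin n) : ℕ) then
    f (⟨e.1.inf, h.1⟩, ⟨e.1.sup, h.2⟩) else ⟨0, hr⟩

lemma inf_mem' {n : ℕ} (e : Sym2 (Fin n)) : e.inf ∈ e := by
  induction e using Sym2.ind with
  | _ x y =>
    rw [Sym2.inf_mk, Sym2.mem_iff]
    rcases le_total x y with h | h
    · left; exact inf_eq_left.mpr h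
    · right; exact inf_eq_right.mpr h

lemma sup_mem' {n : ℕ} (e : Sym2 (Fin n)) : e.sup ∈ e := by
  induction e using Sym2.ind with
  | _ x y =>
    rw [Sym2.sup_mk, Sym2.mem_iff]
    rcases le_total x y with h | h
    · right; exact sup_eq_right.mpr h
    · left; exact sup_eq_left.mpr h

lemma col_inj (n m r : ℕ) (hr : 0 < r) : Function.Injective (col n m r hr) := by
  intro f g hfg
  funext p
  obtain ⟨⟨i, hi⟩, ⟨j, hj⟩⟩ := p
  have hij : i < j := by
    rw [Fin.lt_def]; omega
  have hne : ¬ (s(i, j) : Sym2 (Fin n)).IsDiag := by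
    rw [Sym2.mk_isDiag_iff]
    exact hij.ne
  have h := congrFun hfg ⟨s(i, j), hne⟩
  have hinf : (s(i, j) : Sym2 (Fin n)).inf = i := by
    simp [Sym2.inf_mk, hij.le]
  have hsup : (s(i, j) : Sym2 (Fin n)).sup = j := by
    simp [Sym2.sup_mk, hij.le]
  unfold col at h
  simp only [hinf, hsup] at h
  rw [dif_pos ⟨hi, hj⟩, dif_pos ⟨hi, hj⟩] at h
  exact h

lemma col_good (k s r n m : ℕ) (hr : 0 < r) (hk : k * k / 4 + 1 < s)
    (f : {i : Fin n // (i : ℕ) < m} × {j : Fin n // m ≤ (j : ℕ)} → Fin r) :
    ∀ S : Finset (Fin n), S.card = k →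
                ((Finset.univ.filter
                    (fun e : {e : Sym2 (Fin n) // ¬ e.IsDiag} => e.1 ∈ S.sym2)).image
                      (col n m r hr f)).card < s := by
  intro S hS
  classical
  let A : Finset {i : Fin n // (i : ℕ) < m} := Finset.univ.filter (fun i => i.1 ∈ S)
  let B : Finset {j : Fin n // m ≤ (j : ℕ)} := Finset.univ.filter (fun i => i.1 ∈ S)
  have hsub : ((Finset.univ.filter
                    (fun e : {e : Sym2 (Fin n) // ¬ e.IsDiag} => e.1 ∈ S.sym2)).image
                      (col n m r hr f)) ⊆ insert ⟨0, hr⟩ ((A ×ˢ B).image f) := by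
    intro x hx
    rw [Finset.mem_image] at hx
    obtain ⟨e, he, rfl⟩ := hx
    rw [Finset.mem_filter] at he
    have he2 := he.2
    rw [Finset.mem_sym2_iff] at he2
    unfold col
    split_ifs with h
    · apply Finset.mem_insert_of_mem
      apply Finset.mem_image_of_mem
      rw [Finset.mem_product]
      constructor
      · simp only [A, Finset.mem_filter, Finset.mem_univ, true_and]
        exact he2 _ (inf_mem' _)
      · simp only [B, Finset.mem_filter, Finset.mem_univ, true_and]
        exact he2 _ (sup_mem' _)
    · exact Finset.mem_insert_self _ _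
  have hA : (A.map (Function.Embedding.subtype _)).card + (B.map (Function.Embedding.subtype _)).card
      ≤ S.card := by
    rw [← Finset.card_union_of_disjoint]
    · apply Finset.card_le_card
      intro x hx
      rw [Finset.mem_union, Finset.mem_map, Finset.mem_map] at hx
      rcases hx with ⟨y, hy, rfl⟩ | ⟨y, hy, rfl⟩
      · exact (Finset.mem_filter.mp hy).2
      · exact (Finset.mem_filter.mp hy).2
    · rw [Finset.disjoint_left]
      intro x hx hx'
      rw [Finset.mem_map] at hx hx'
      obtain ⟨y, hy, rfl⟩ := hx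
      obtain ⟨z, hz, hz'⟩ := hx'
      have h1 := y.2
      have h2 := z.2
      simp only [Function.Embedding.coe_subtype] at hz'
      rw [hz'] at h2
      omega
  rw [Finset.card_map, Finset.card_map, hS] at hA
  have hc := Finset.card_le_card hsub
  have hc2 := Finset.card_insert_le (⟨0, hr⟩ : Fin r) ((A ×ˢ B).image f)
  have hc3 := Finset.card_image_le (s := A ×ˢ B) (f := f)
  rw [Finset.card_product] at hc3
  have hab : A.card * B.card ≤ k * k / 4 := by
    rw [Nat.le_div_iff_mul_le (by norm_num)]
    have : (A.card + B.card) * (A.card + B.card) ≤ k * k := Nat.mul_le_mul hA hA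
    zify at this ⊢
    nlinarith [sq_nonneg ((A.card : ℤ) - B.card)]
  omega

lemma card_good_ge (k s r n m : ℕ) (hm : m ≤ n) (hr : 0 < r) (hk : k * k / 4 + 1 < s) :
    r ^ (m * (n - m)) ≤ Nat.card (Good k s r n) := by
  classical
  let F : ({i : Fin n // (i : ℕ) < m} × {j : Fin n // m ≤ (j : ℕ)} → Fin r) → Good k s r n :=
    fun f => ⟨col n m r hr f, col_good k s r n m hr hk f⟩
  have hF : Function.Injective F := by
    intro f g h
    apply col_inj n m r hr
    exact congrArg Subtype.val h
  have h1 := Nat.card_le_card_of_injective F hF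
  refine le_trans (le_of_eq ?_) h1
  rw [Nat.card_eq_fintype_card, Fintype.card_fun, Fintype.card_prod, Fintype.card_fin]
  congr 2
  · rw [Fintype.card_subtype]
    have : (Finset.univ.filter fun i : Fin n => (i : ℕ) < m) = (Finset.univ : Finset (Fin m)).map
        (Fin.castLEEmb hm) := by
      ext i
      simp only [Finset.mem_filter, Finset.mem_univ, true_and, Finset.mem_map, Fin.castLEEmb_apply]
      constructor
      · intro h
        exact ⟨⟨i, h⟩, rfl⟩
      · rintro ⟨a, rfl⟩
        exact a.2
    rw [this, Finset.card_map, Finset.card_univ, Fintype.card_fin]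
  · have h2 : Fintype.card {j : Fin n // m ≤ (j : ℕ)} = Fintype.card {j : Fin n // ¬ ((j : ℕ) < m)} := by
      apply Fintype.card_congr
      apply Equiv.subtypeEquivRight
      intro x
      exact not_lt.symm
    rw [h2, Fintype.card_subtype_compl, Fintype.card_fin]
    congr 1
    rw [Fintype.card_subtype]
    have : (Finset.univ.filter fun i : Fin n => (i : ℕ) < m) = (Finset.univ : Finset (Fin m)).map
        (Fin.castLEEmb hm) := by
      ext i
      simp only [Finset.mem_filter, Finset.mem_univ, true_and, Finset.mem_map, Fin.castLEEmb_apply]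
      constructor
      · intro h
        exact ⟨⟨i, h⟩, rfl⟩
      · rintro ⟨a, rfl⟩
        exact a.2
    rw [this, Finset.card_map, Finset.card_univ, Fintype.card_fin]

end Pool.Agent.H14.ManyColor
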