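import Mathlib
import Pool.Agent.H14.ManyColor

set_option autoImplicit false
open Filter Topology

namespace Pool.Agent.H14.ManyColor

lemma choose_two_add (n : ℕ) : n.choose 2 + n / 2 ≤ 2 * ((n / 2) * (n - n / 2)) := by
  rcases Nat.even_or_odd' n with ⟨m, rfl | rfl⟩
  · have h1 : 2 * m / 2 = m := by omega
    rw [h1, Nat.choose_two_right]
    rcases m with _ | m
    · simp
    · have h2 : 2 * (m + 1) * (2 * (m + 1) - 1) / 2 = (m + 1) * (2 * (m + 1) - 1) := by
        rw [mul_assoc]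
        exact Nat.mul_div_cancel_left _ (by norm_num)
      rw [h2]
      have h3 : 2 * (m + 1) - 1 = 2 * m + 1 := by omega
      have h4 : 2 * (m + 1) - (m + 1) = m + 1 := by omega
      rw [h3, h4]
      nlinarith
  · have h1 : (2 * m + 1) / 2 = m := by omega
    rw [h1, Nat.choose_two_right]
    have h2 : (2 * m + 1) * (2 * m + 1 - 1) / 2 = (2 * m + 1) * m := by
      have : 2 * m + 1 - 1 = 2 * m := by omega
      rw [this]
      have : (2 * m + 1) * (2 * m) = 2 * ((2 * m + 1) * m) := by ring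
      rw [this]
      exact Nat.mul_div_cancel_left _ (by norm_num)
    rw [h2]
    have h4 : 2 * m + 1 - m = m + 1 := by omega
    rw [h4]
    nlinarith

lemma card_good_ge_pow (k s r n : ℕ) (hs : 3 ≤ s) (hk : k * k / 4 + 1 < s)
    (hr : (s - 1) ^ 2 ≤ r) :
    (s - 1) ^ (n.choose 2 + n / 2) ≤ Nat.card (Good k s r n) := by
  have hr0 : 0 < r := lt_of_lt_of_le (pow_pos (by omega) 2) hr
  have h := card_good_ge k s r n (n / 2) (Nat.div_le_self _ _) hr0 hk
  refine le_trans ?_ h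
  calc (s - 1) ^ (n.choose 2 + n / 2) ≤ (s - 1) ^ (2 * ((n / 2) * (n - n / 2))) :=
        Nat.pow_le_pow_right (by omega) (choose_two_add n)
    _ = ((s - 1) ^ 2) ^ ((n / 2) * (n - n / 2)) := by rw [pow_mul]
    _ ≤ r ^ ((n / 2) * (n - n / 2)) := Nat.pow_le_pow_left hr _

theorem ratio_tendsto_atTop (k s r : ℕ) (hs : 3 ≤ s) (hk : k * k / 4 + 1 < s)
    (hr : (s - 1) ^ 2 ≤ r) :
      Tendsto
        (fun n : ℕ =>
          (Nat.card {c : {e : Sym2 (Fin n) // ¬ e.IsDiag} → Fin r //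
              ∀ S : Finset (Fin n), S.card = k →
                ((Finset.univ.filter
                    (fun e : {e : Sym2 (Fin n) // ¬ e.IsDiag} => e.1 ∈ S.sym2)).image c).card < s} : ℝ)
            / ((r.choose (s - 1) : ℝ) * ((s : ℝ) - 1) ^ (n.choose 2)))
        atTop atTop := by
  have hsr : s - 1 ≤ r := by
    refine le_trans ?_ hr
    nlinarith [show 1 ≤ s - 1 by omega]
  have hC : 0 < r.choose (s - 1) := Nat.choose_pos hsr
  have hs1 : ((s : ℝ) - 1) = ((s - 1 : ℕ) : ℝ) := by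
    rw [Nat.cast_sub (by omega)]
    simp
  have hs2 : (1 : ℝ) < ((s - 1 : ℕ) : ℝ) := by
    have : 1 < s - 1 := by omega
    exact_mod_cast this
  have hlim : Tendsto (fun n : ℕ => ((s - 1 : ℕ) : ℝ) ^ (n / 2) / (r.choose (s - 1) : ℝ))
      atTop atTop := by
    apply Tendsto.atTop_div_const
    · exact_mod_cast hC
    · apply (tendsto_pow_atTop_atTop_of_one_lt hs2).comp
      exact Nat.tendsto_div_const_atTop (by norm_num)
  refine tendsto_atTop_mono ?_ hlim
  intro n
  have hpos : (0 : ℝ) < ((s - 1 : ℕ) : ℝ) ^ (n.choose 2) := by positivity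
  have hC' : (0 : ℝ) < (r.choose (s - 1) : ℝ) := by exact_mod_cast hC
  rw [hs1, div_le_div_iff₀ hC' (by positivity)]
  have h := card_good_ge_pow k s r n hs hk hr
  have h' : ((s - 1 : ℕ) : ℝ) ^ (n.choose 2 + n / 2) ≤ (Nat.card (Good k s r n) : ℝ) := by
    exact_mod_cast h
  calc ((s - 1 : ℕ) : ℝ) ^ (n / 2) * ((r.choose (s - 1) : ℝ) * ((s - 1 : ℕ) : ℝ) ^ (n.choose 2))
      = ((s - 1 : ℕ) : ℝ) ^ (n.choose 2 + n / 2) * (r.choose (s - 1) : ℝ) := by
        rw [pow_add]; ring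
    _ ≤ _ := mul_le_mul_of_nonneg_right h' hC'.le

end Pool.Agent.H14.ManyColor
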